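import Pool.Agent.Y173.QL.Main

/-! Nonvanishing and weak abundance for quotients of varieties with many closed logarithmic 1-forms. -/

set_option autoImplicit false
set_option linter.overlappingInstances false

open FF IntermediateField Pool.Agent.W619.TW Pool.Agent.W619.Y Pool.Agent.Y173.QA
  Pool.Agent.Y173.QL

namespace Pool.Agent.Results.MP_bc213e_ag.ClosedLogForms

/-- **Nonvanishing and weak abundance.** Let `Z` be a projective manifold of dimension `n` with function field `L`,
`G` a finite group of birational automorphisms of `Z`, `V` a `G`-stable space of closed rational
`1`-forms on `Z` with at most logarithmic poles (on all models) which generically generates the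
cotangent bundle. Let `(X, D)` be a pair birational to the quotient: `X` is birational to `Z / G`,
and `D` is the reduced boundary consisting of the images of the prime divisors (on all models)
along which not all forms in `V` are regular. Assume the Reid-Tai condition on the eigenvalues of
the elements of `G` on `V` at the other divisors. Let `d` be the dimension of the space of rational
vector fields on `Z` on which all forms in `V` are constant. Then `κ (K_X + D) ≥ n - d`; and if `V`
is finite dimensional and these vector fields are regular on some projective model of `Z`, then
`ν (K_X + D) ≤ n - d`, so that `κ (K_X + D) = ν (K_X + D) = n - d`. (For a closed subvariety of a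
semiabelian variety with the invariant `1`-forms, the vector fields are those of the
stabilizer.) -/
theorem result {k L : Type} [Field k] [CharZero k] [IsAlgClosed k] [Field L] [Algebra k L]
    [Algebra.EssFiniteType k L] {n : ℕ} (hn : Algebra.trdeg k L = n)
    (G : Subgroup (L ≃ₐ[k] L)) [Finite G] (V : Submodule k (Derivation k L L →ₗ[L] L))
    (hlog : ∀ θ ∈ V, IsLogForm n θ) (hcl : ∀ θ ∈ V, IsClosedForm θ)
    (hstab : ∀ g ∈ G, ∀ θ ∈ V, ∃ θ' ∈ V, IsImage g θ θ')
    (hgen : ∃ (θ : Fin n → Derivation k L L →ₗ[L] L) (D : Fin n → Derivation k L L),
      (∀ i, θ i ∈ V) ∧ (Matrix.of fun i j => θ i (D j)).det ≠ 0)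
    (hRT : ReidTaiLog n G V) :
    ∃ a : ℕ, a + Module.finrank k (constFields V) = n ∧
      KodLog k (fixedField G) n (polarBoundary G V) a ∧
      (FiniteDimensional k V → IsRegularOnModel (constFields V) →
        NumLe k (fixedField G) n (polarBoundary G V) a) :=
  Pool.Agent.Y173.QL.main hn G V hlog hcl hstab hgen hRT

end Pool.Agent.Results.MP_bc213e_ag.ClosedLogForms
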