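import Pool.Agent.Y192.KC.LPsef

/-!
MP_bc213e_ag, Q1: nonvanishing for the log pairs which consist of the covers
`w j ^ e j = F j (t 0 ^ m, …, t n ^ m)` of arbitrary projective varieties and the divisors
`G (t 0 ^ m, …, t n ^ m) = 0` on them, `m` large.

`OffG X m t`: the places of the function field `L` of `X` (prime divisors over `X`) whose centre lies
on the divisor `G (t 0 ^ m, …, t n ^ m) = 0`. `KodGe ℂ L d (OffG X m t) 0`: some pluricanonical form
with at most logarithmic poles at these places, and regular at all other prime divisors, is not zero.
`Psef ℂ L d (OffG X m t)`: the log canonical bundle `K + D` is pseudo-effective.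
-/

set_option autoImplicit false

namespace Pool.Agent.Results.MP_bc213e_ag.KummerNonvanishing

open Pool.Agent.W602.GT Pool.Agent.W619.PL Pool.Agent.Y192.KC

/-- Let `Z` be any irreducible projective variety in `P^n`, not in a coordinate hyperplane, with the
homogeneous prime ideal `I`, let `F 1, …, F r` and `G` be forms which do not vanish on `Z`, and let
`e 1, …, e r` be positive numbers (there is no condition on the singularities of `Z` and of the
divisors of the forms). There is a number `m0` with the following property. Let `m ≥ m0` be divisible
by the `e j`, and let `X` be any irreducible component, of dimension `d`, of the projective variety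
with the equations `f (t 0 ^ m, …, t n ^ m) = 0`, `f ∈ I`, and
`w j ^ e j = F j (t 0 ^ m, …, t n ^ m)` in the weighted projective space with the homogeneous
coordinates `t i` and `w j`; `L` is the function field of `X`, and `t`, `w` are the coordinates of its
generic point. Let `D` be the divisor `G (t 0 ^ m, …, t n ^ m) = 0` on `X`. Then the following are
equivalent:
(1) `K_X + D` is pseudo-effective (on a log resolution),
(2) the Kodaira dimension of `K_X + D` is not `-∞`,
(3) `X \ D` is not `A¹`-uniruled,
(4) there is no one-parameter group `s ↦ diag (s ^ l 0, …, s ^ l n)` which acts nontrivially on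
`P^n`, preserves `Z`, the divisor of `G` on `Z` and the divisors of the `F j` on `Z` up to multiples
of `e j`, and whose limits for `s → 0` of the points of `Z` with `G ≠ 0` satisfy `G ≠ 0` as well. -/
theorem result {n r : ℕ} (X : ZCov n r) :
    ∃ m0 : ℕ, ∀ m, m0 ≤ m → (∀ j, X.e j ∣ m) →
      ∀ (L : Type) [Field L] [Algebra ℂ L] (t : Fin (n + 1) → L) (w : Fin r → L),
      ZField X m L t w → ∀ d : ℕ, Algebra.trdeg ℂ L = d →
      [Psef ℂ L d (OffG X.toCov m t), KodGe ℂ L d (OffG X.toCov m t) 0,
        ¬ IsA1Uniruled ℂ L d (OffG X.toCov m t), ¬ ZLim X].TFAE :=
  lpsef_all X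

end Pool.Agent.Results.MP_bc213e_ag.KummerNonvanishing
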