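import Pool.Agent.Y174.L4

/-!
MP_bc213e_ag, Q1: nonvanishing for log canonical pairs `(V, Δ)` such that the logarithmic cotangent
bundle of `V` is generically generated by multivalued logarithmic 1-forms modulo a subsheaf of rank
`d` whose determinant is effective up to `Δ`.
-/

set_option autoImplicit false

universe u

open FF Pool.Agent.W619.PQ Pool.Agent.W619.TW Pool.Agent.Y174

namespace Pool.Agent.Results.MP_bc213e_ag.MultivaluedLogForms

/-- Let `(V, Δ)` be a projective log canonical pair of dimension `n = d + r`, `K` the function field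
of `V`, `δ v ≥ 0` the multiplicity of `Δ` along the prime divisor `v` over `V`, that is, the positive
part of `- a (v, V, Δ)`, and `B` a set of prime divisors over `V` with `δ v = 1`. Let
`α 0, ..., α (d - 1)` be rational 1-forms on `V`, linearly independent over `K`, and `a ≠ 0` a
rational function such that the tensor `a (α 0 ∧ ... ∧ α (d - 1)) ^ m`, `m ≥ 1`, is a section of
`(Ω ^ d (log B)) ^ ⊗ m` twisted by `m (Δ - B)`. Let `ω i` be finitely many multivalued 1-forms
on `V` with logarithmic poles along `B`, such that no rational vector field `D ≠ 0` is annihilated by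
all `α l` and all `ω i`. Then there is a finite Galois cover `π : Z → V`, with function field `L`,
with `r` 1-forms `η i` with logarithmic poles along `B_Z = π^(-1) B` which are linearly independent
together with the pull-backs `α' l` of the `α l`, such that for the positive part `Δ_Z` of the divisor
`π^* (K_V + Δ) - K_Z`, with multiplicities `δ'`, which are `1` along `B_Z`,
`κ (K_V + Δ) = κ (K_Z + Δ_Z) ≥ 0` and `ν (K_V + Δ) ≤ ν (K_Z + Δ_Z)`. -/
theorem result {K : Type u} [Field K] [Algebra ℂ K] [Algebra.EssFiniteType ℂ K] {d r : ℕ}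
    (hn : Algebra.trdeg ℂ K = (d + r : ℕ)) (B : Place ℂ K → Prop) (δ : Place ℂ K → ℝ)
    (hδ : ∀ v, 0 ≤ δ v) (hB : ∀ v, B v → δ v = 1)
    {m : ℕ} (hm : 1 ≤ m) (α : Fin d → (Derivation ℂ K K →ₗ[K] K)) (hα : LinearIndependent K α)
    (a : K) (ha : a ≠ 0) (hreg : TensorLog (d + r) m B δ α a)
    {N : ℕ} (ω : Fin N → Derivation ℂ K K →ₗ[K] AlgebraicClosure K)
    (hω : ∀ i, MultiLog (d + r) B (ω i))
    (hD : ∀ D : Derivation ℂ K K, (∀ l, α l D = 0) → (∀ i, ω i D = 0) → D = 0) :
    ∃ L : IntermediateField K (AlgebraicClosure K), FiniteDimensional K L ∧ IsGalois K L ∧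
      (∃ (α' : Fin d → (Derivation ℂ L L →ₗ[L] L)) (η : Fin r → (Derivation ℂ L L →ₗ[L] L)),
        (∀ l, IsPullForm (α l) (α' l)) ∧ LinearIndependent L (Fin.append α' η) ∧
        ∀ i, ∀ w : Place ℂ L, IsDivisorial w (d + r) → ∀ D : Derivation ℂ L L,
          LogFld (BdOn B) w D → w.Reg (η i D)) ∧
      ∃ δ' : Place ℂ L → ℝ, IsPull δ δ' ∧ (∀ w, BdOn B w → δ' w = 1) ∧
        PairKod ℂ K (d + r) δ 0 ∧
        (∀ h, PairKod ℂ K (d + r) δ h ↔ PairKod ℂ L (d + r) δ' h) ∧
        ∀ h, PairNum ℂ L (d + r) δ' h → PairNum ℂ K (d + r) δ h := by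
  obtain ⟨L, h1, h2, h3, h4, h5⟩ := main_L2 ‹Algebra.EssFiniteType ℂ K› hn hm B δ hδ hB α hα a ha
    hreg ω hω hD
  obtain ⟨δ', hδ'⟩ := exists_pull (L := L) δ
  refine ⟨L, h1, h2, h3, δ', hδ', ?_, h4, h5 δ' hδ'⟩
  rintro w ⟨v, e, hw, hv⟩
  rw [hδ' v w e hw, hB v hv, sub_self, mul_zero, sub_zero, max_eq_right zero_le_one]

end Pool.Agent.Results.MP_bc213e_ag.MultivaluedLogForms
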