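import Pool.Agent.Y191.GenFib

/-!
# Nonvanishing for pairs with a linear system that has many members of small multiplicity

Let `(X, Δ)` be a pair, for instance a log canonical pair, and `X ⇢ P^n` a rational map whose image
`B`, any subvariety of `P^n`, has dimension `p`; `s = dim X - p`. Let `ℓ i = 0`, `i < q`, be
hyperplanes in general position, such that the points `ℓ i` impose independent conditions on the
forms of degree `d`, with weights `wt i ≥ 0` whose sum is at least `(p + 1) γ`,
`γ = (n - p + d).choose (n - p)`. For a prime divisor `P` of `X` let `e i` be the multiplicity of the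
hyperplane `ℓ i = 0` at `P` (for the divisors without fixed component which the map defines).
Along the fibres of the map let `lam + 1` relative `m`-canonical forms be given whose poles at `P` are
at most `m δ₂ P` and whose ratios are algebraically independent over the function field of `B`
(`FibreKodairaGe`; for `s = 0` this is no condition, with `lam = 0` and `δ₂ = 0`; for `lam = 0` it is
one nonzero form, for instance the product of `s` relative 1-forms, `m = 1`, which exist if the
general fibre has a generically finite map to an abelian or semi-abelian variety which comes from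
`X`). Let, for all `P`,

  `min (#{i | e i ≠ 0}) γ ≤ γ (δ P - δ₂ P) + ∑ i, (1 - wt i) e i`,

where `δ P` is the coefficient of `Δ`. Then some positive multiple of `K_X + Δ` has a nonzero section,
`κ(X, K_X + Δ) ≥ lam`, and `κ(X, K_X + Δ) ≥ p + lam` if the sum of the weights is greater than
`(p + 1) γ`; nefness is not needed. For `wt i = 1 - 1 / m` the condition holds if each `e i` is `0` or at
least `m (1 - δ P + δ₂ P)`; if there are many hyperplanes then `m = 2` is allowed.

The function-field language of the starting repository is used. `K` is the function field of `X`;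
the prime divisors of `X` are places `P` of `K` (`Place`, `Divisorial`), `P.ord` is the order along
`P`, and `X` is given by the set of its prime divisors. A section of `N (K_X + Δ)` (`PairSec`) is an
`N`-canonical form `ω` (`IsPluri`), a function of `dim X` rational vector fields, whose value on vector
fields that are regular at `P` has order at least `- N δ P`, for all prime divisors `P` of `X`. The
relative forms (`FibSec`) are functions of `s` rational vector fields along the fibres, which are the
derivations over the function field `RF ℂ b` of `B`.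

Proof (`Pool.Agent.Y191`). The forms are the products of a form of the image, a determinant built
from the forms of degree `d + 1` which vanish at the points `ℓ i`, and the forms along the fibres.
-/

set_option autoImplicit false

open FF MvPolynomial Pool.Agent.W602.GT Pool.Agent.Y191 Pool.Agent.TH585.SV

namespace Pool.Agent.Results.MP_bc213e_ag.SmallMultiplicityPairs

/-- The `b j` are the coordinates of a rational map whose image has dimension `p` and is not
contained in one of the hyperplanes `ℓ i = 0`. -/
def IsMap {K : Type} [Field K] [Algebra ℂ K] {n q : ℕ} (ℓ : Fin q → Fin (n + 1) → ℂ)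
    (b : Fin (n + 1) → K) (p : ℕ) : Prop :=
  (∀ i, lf (ℓ i) b ≠ 0) ∧ (∃ j, b j ≠ 0) ∧ Algebra.trdeg ℂ (RF ℂ b) = p

/-- Forms along the fibres: for some `m > 0` there are `lam + 1` relative `m`-canonical forms, poles
at most `m δ₂`, whose ratios are algebraically independent over the function field `L` of the base.
`N` is the dimension of `X`, `s` the dimension of the fibres. -/
def FibreKodairaGe {K : Type} [Field K] [Algebra ℂ K] (N : ℕ) (X : Set (Place ℂ K))
    (δ₂ : Place ℂ K → ℝ) (L : IntermediateField ℂ K) (s lam : ℕ) : Prop :=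
  ∃ m : ℕ, 0 < m ∧ ∃ θ : Fin (lam + 1) → (Fin s → Derivation L K K) → K,
    (∀ j, FibSec N m X δ₂ L (θ j)) ∧
    ∃ G, θ 0 G ≠ 0 ∧ AlgebraicIndependent L (fun i : Fin lam => θ i.succ G / θ 0 G)

/-- (1) Let `K` be the function field of a variety `X` of dimension `p + s`, `b` the coordinates of a
rational map `X ⇢ P^n` whose image has dimension `p` and is not contained in one of the hyperplanes
`ℓ i = 0`, which are in general position and impose independent conditions on the forms of degree
`d`. Let the sum of the weights `wt i ≥ 0` be at least `(p + 1) * γ`, where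
`γ = (n - p + d).choose (n - p)`, let there be `lam + 1` forms along the fibres, with poles at most
`δ₂`, whose ratios are algebraically independent over the function field of the image, and let the
multiplicities `e i` satisfy `min (#{i | e i ≠ 0}) γ ≤ γ (δ P - δ₂ P) + ∑ i, (1 - wt i) e i` at all
prime divisors `P` of `X`. Then `κ(K_X + Δ) ≥ lam`, in particular some positive multiple of `K_X + Δ`
has a nonzero section, and `κ(K_X + Δ) ≥ p + lam` if the sum of the weights is greater than
`(p + 1) * γ`.

(2) Let `m ≥ 2`, `2 * n * m ≤ Q * (m - 1)` and `(n + Q).choose n < q`. For `q` general hyperplanes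
(some polynomial `Ψ` does not vanish at the coefficients) the following holds: if `X` and `b` are as
above, `p ≥ 1`, there are `lam + 1` forms along the fibres as above with `δ₂ ≤ Δ`, and all
multiplicities `e i` at the prime divisors `P` are `0` or at least `m * (1 - δ P + δ₂ P)`, then
`κ(K_X + Δ) ≥ p + lam`. -/
theorem result {n q : ℕ} (hn : 1 ≤ n) :
    (∀ d p s lam : ℕ, 0 < d → ∀ ℓ : Fin q → Fin (n + 1) → ℂ, Independent d ℓ →
      GeneralPosition ℓ → n + 1 ≤ q → ∀ (K : Type) [Field K] [Algebra ℂ K],
      Algebra.trdeg ℂ K = (p + s : ℕ) → ∀ b : Fin (n + 1) → K, IsMap ℓ b p →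
      ∀ wt : Fin q → ℚ, (∀ i, 0 ≤ wt i) →
      (((p + 1) * (n - p + d).choose (n - p) : ℕ) : ℚ) ≤ ∑ i, wt i →
      ∀ (X : Set (Place ℂ K)) (δ δ₂ : Place ℂ K → ℝ),
      (∀ P ∈ X, Divisorial (p + s) P → ∀ (c : ℤ) (e : Fin q → ℕ), OrdData P ℓ b c e →
        ((min (Finset.univ.filter fun i => e i ≠ 0).card ((n - p + d).choose (n - p)) : ℕ) : ℝ) ≤
          ((n - p + d).choose (n - p) : ℕ) * (δ P - δ₂ P) + ∑ i, (1 - (wt i : ℝ)) * e i) →
      FibreKodairaGe (p + s) X δ₂ (RF ℂ b) s lam →
      KodairaGe (p + s) X δ lam ∧
        ((((p + 1) * (n - p + d).choose (n - p) : ℕ) : ℚ) < ∑ i, wt i →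
          KodairaGe (p + s) X δ (p + lam))) ∧
    ∀ m Q : ℕ, 2 ≤ m → 2 * n * m ≤ Q * (m - 1) → (n + Q).choose n < q →
      ∃ Ψ : MvPolynomial (Fin q × Fin (n + 1)) ℂ, Ψ ≠ 0 ∧
        ∀ ℓ : Fin q → Fin (n + 1) → ℂ, eval (fun x => ℓ x.1 x.2) Ψ ≠ 0 →
        ∀ (K : Type) [Field K] [Algebra ℂ K] (p s lam : ℕ), 1 ≤ p →
        Algebra.trdeg ℂ K = (p + s : ℕ) → ∀ b : Fin (n + 1) → K, IsMap ℓ b p →
        ∀ (X : Set (Place ℂ K)) (δ δ₂ : Place ℂ K → ℝ), (∀ P ∈ X, δ₂ P ≤ δ P) →
        (∀ P ∈ X, Divisorial (p + s) P → ∀ (c : ℤ) (e : Fin q → ℕ), OrdData P ℓ b c e →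
          ∀ i, e i = 0 ∨ m * (1 - δ P + δ₂ P) ≤ e i) →
        FibreKodairaGe (p + s) X δ₂ (RF ℂ b) s lam → KodairaGe (p + s) X δ (p + lam) := by
  constructor
  · rintro d p s lam hd ℓ hI hg hq K _ _ hK b ⟨hl, hb, htr⟩ wt hwt hlt X δ δ₂ hmult
      ⟨M, hM, θ, hθ, hne⟩
    exact small_fib (δ₁ := fun P => δ P - δ₂ P) hd hI hg hq hl hb htr hK hwt hlt
      (fun P _ => by linarith) hmult hM hθ hne
  · intro m Q hm hQ hq
    obtain ⟨Ψ, hΨ, h⟩ := general_fib (n := n) (q := q) hn hm hQ hq
    refine ⟨Ψ, hΨ, ?_⟩
    rintro ℓ hℓ K _ _ p s lam hp hK b ⟨hl, hb, htr⟩ X δ δ₂ hδ hmult ⟨M, hM, θ, hθ, hne⟩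
    refine h ℓ hℓ K p s lam hp hK b hl hb htr X (fun P => δ P - δ₂ P) δ₂ δ
      (fun P hP => sub_nonneg.mpr (hδ P hP)) (fun P _ => by linarith)
      (fun P hP hPd c e ho i => ?_) M hM θ hθ hne
    rcases hmult P hP hPd c e ho i with h1 | h1
    · exact Or.inl h1
    · right
      linarith

end Pool.Agent.Results.MP_bc213e_ag.SmallMultiplicityPairs
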